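import Mathlib

/-!
# The loneliness gap can drop from its maximum to its minimum under a translation (helper805)

Q2 is false, for every number `n ≥ 2` of speeds and for every translation `a ≥ 1`: the set
`V = {a, 3 a, 5 a, …, (2 n - 1) a}` has loneliness gap `1 / 2`, while `a + V = {2 a, 4 a, …, 2 n a}`
has loneliness gap `1 / (n + 1)`.
-/

set_option autoImplicit false

namespace Pool.Agent.Results.MP_64d5df_nt.TranslationDecreasesGap

/-- The loneliness gap of a finite set of speeds: the supremum over all real `t` of the minimum over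
`v ∈ V` of the distance of `t v` to the nearest integer. -/
noncomputable def κ (V : Finset ℕ) : ℝ :=
  ⨆ t : ℝ, ⨅ v : V, |t * (v : ℕ) - round (t * (v : ℕ))|

/-- The translate `a + V`. -/
def translate (a : ℕ) (V : Finset ℕ) : Finset ℕ := V.image (fun v => a + v)

/-- `V` is a set of `n` positive integers. -/
def IsSpeeds (n : ℕ) (V : Finset ℕ) : Prop := V.card = n ∧ ∀ v ∈ V, 0 < v

theorem bdd (V : Finset ℕ) (t : ℝ) :
    BddBelow (Set.range fun v : V => |t * (v : ℕ) - round (t * (v : ℕ))|) :=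
  ⟨0, by rintro _ ⟨v, rfl⟩; exact abs_nonneg _⟩

theorem inf_le {V : Finset ℕ} (t : ℝ) {v : ℕ} (hv : v ∈ V) :
    (⨅ v : V, |t * (v : ℕ) - round (t * (v : ℕ))|) ≤ |t * v - round (t * v)| :=
  ciInf_le (bdd V t) ⟨v, hv⟩

theorem bddA {V : Finset ℕ} (hV : V.Nonempty) :
    BddAbove (Set.range fun t : ℝ => ⨅ v : V, |t * (v : ℕ) - round (t * (v : ℕ))|) := by
  obtain ⟨v, hv⟩ := hV
  refine ⟨1 / 2, ?_⟩
  rintro _ ⟨t, rfl⟩
  exact (inf_le t hv).trans (abs_sub_round _)

theorem κ_le_half {V : Finset ℕ} (hV : V.Nonempty) : κ V ≤ 1 / 2 := by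
  obtain ⟨v, hv⟩ := hV
  exact ciSup_le fun t => (inf_le t hv).trans (abs_sub_round _)

theorem le_κ {V : Finset ℕ} (hV : V.Nonempty) {c : ℝ} (t : ℝ)
    (h : ∀ v ∈ V, c ≤ |t * v - round (t * v)|) : c ≤ κ V := by
  refine le_trans ?_ (le_ciSup (bddA hV) t)
  have : Nonempty V := hV.to_subtype
  exact le_ciInf fun v => h v v.2

theorem le_nd {c y : ℝ} (n : ℤ) (h1 : c ≤ y - n) (h2 : y - n ≤ 1 - c) : c ≤ |y - round y| := by
  rcases le_or_gt (round y) n with h | h
  · have : ((round y : ℤ) : ℝ) ≤ n := by exact_mod_cast h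
    exact le_trans (by linarith) (le_abs_self _)
  · have : (n : ℝ) + 1 ≤ ((round y : ℤ) : ℝ) := by exact_mod_cast h
    exact le_trans (by linarith) (neg_le_abs _)

/-- the set `{a, 3 a, …, (2 n - 1) a}` -/
def oddSet (n a : ℕ) : Finset ℕ := (Finset.range n).image (fun i => a * (2 * i + 1))

theorem oddSet_speeds (n a : ℕ) (ha : 1 ≤ a) : IsSpeeds n (oddSet n a) := by
  refine ⟨?_, fun v hv => ?_⟩
  · unfold oddSet
    rw [Finset.card_image_of_injective, Finset.card_range]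
    intro i j hij
    have h3 : 2 * i + 1 = 2 * j + 1 := Nat.eq_of_mul_eq_mul_left (by omega) hij
    omega
  · obtain ⟨i, _, rfl⟩ := Finset.mem_image.1 hv
    positivity

theorem κ_oddSet (n a : ℕ) (hn : 1 ≤ n) (ha : 1 ≤ a) : κ (oddSet n a) = 1 / 2 := by
  have hne : (oddSet n a).Nonempty := by
    rw [← Finset.card_pos, (oddSet_speeds n a ha).1]; omega
  refine le_antisymm (κ_le_half hne) (le_κ hne (1 / (2 * a)) fun v hv => ?_)
  obtain ⟨i, _, rfl⟩ := Finset.mem_image.1 hv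
  have haR : (0 : ℝ) < a := by exact_mod_cast ha
  have e : 1 / (2 * (a : ℝ)) * ((a * (2 * i + 1) : ℕ) : ℝ) = ((i : ℤ) : ℝ) + 1 / 2 := by
    push_cast
    field_simp
  rw [e]
  refine le_nd (i : ℤ) ?_ ?_ <;> linarith

theorem mem_translate (n a k : ℕ) :
    k ∈ translate a (oddSet n a) ↔ ∃ i < n, k = 2 * a * (i + 1) := by
  unfold translate oddSet
  rw [Finset.mem_image]
  constructor
  · rintro ⟨v, hv, rfl⟩
    obtain ⟨i, hi, rfl⟩ := Finset.mem_image.1 hv
    exact ⟨i, Finset.mem_range.1 hi, by ring⟩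
  · rintro ⟨i, hi, rfl⟩
    exact ⟨a * (2 * i + 1), Finset.mem_image.2 ⟨i, Finset.mem_range.2 hi, rfl⟩, by ring⟩

theorem κ_translate (n a : ℕ) (hn : 1 ≤ n) (ha : 1 ≤ a) :
    κ (translate a (oddSet n a)) = 1 / ((n : ℝ) + 1) := by
  have haR : (0 : ℝ) < a := by exact_mod_cast ha
  have hnR : (1 : ℝ) ≤ n := by exact_mod_cast hn
  have hne : (translate a (oddSet n a)).Nonempty :=
    ⟨2 * a * (0 + 1), (mem_translate n a _).2 ⟨0, by omega, rfl⟩⟩
  apply le_antisymm
  · refine ciSup_le fun t => ?_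
    obtain ⟨j, k, hk0, hkn, h⟩ := Real.exists_int_int_abs_mul_sub_le (t * (2 * a)) (n := n)
      (by omega)
    obtain ⟨m, rfl⟩ : ∃ m : ℕ, k = (m : ℤ) + 1 := ⟨(k - 1).toNat, by omega⟩
    have hm : m < n := by omega
    have hmem : 2 * a * (m + 1) ∈ translate a (oddSet n a) :=
      (mem_translate n a _).2 ⟨m, hm, rfl⟩
    refine (inf_le t hmem).trans ?_
    refine (round_le (t * ((2 * a * (m + 1) : ℕ) : ℝ)) j).trans ?_
    have e : t * ((2 * a * (m + 1) : ℕ) : ℝ) - j = (((m : ℤ) + 1 : ℤ) : ℝ) * (t * (2 * a)) - j := by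
      push_cast; ring
    rw [e]
    exact h
  · refine le_κ hne (1 / (2 * a * (n + 1))) fun v hv => ?_
    obtain ⟨i, hi, rfl⟩ := (mem_translate n a v).1 hv
    have hiR : (i : ℝ) + 1 ≤ n := by exact_mod_cast hi
    have hi0 : (0 : ℝ) ≤ i := Nat.cast_nonneg _
    have e : 1 / (2 * (a : ℝ) * (n + 1)) * ((2 * a * (i + 1) : ℕ) : ℝ) = (i + 1) / (n + 1) := by
      push_cast
      field_simp
    rw [e]
    refine le_nd 0 ?_ ?_
    · push_cast
      rw [sub_zero]
      gcongr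
      linarith
    · push_cast
      rw [sub_zero, div_le_iff₀ (by linarith), sub_mul, one_div, inv_mul_cancel₀ (by linarith)]
      linarith

/-- Q2 fails, for every `n ≥ 2` and every translation `a ≥ 1`, as badly as possible: the gap may
drop from the largest possible value `1 / 2` to `1 / (n + 1)`. -/
theorem result :
    (¬ ∀ (n : ℕ), 1 ≤ n → ∀ V : Finset ℕ, IsSpeeds n V → ∀ a : ℕ, 1 ≤ a →
        κ V ≤ κ (translate a V)) ∧
    (∀ n a : ℕ, 2 ≤ n → 1 ≤ a → ∃ V : Finset ℕ, IsSpeeds n V ∧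
        κ V = 1 / 2 ∧ κ (translate a V) = 1 / ((n : ℝ) + 1) ∧ κ (translate a V) < κ V) := by
  have h2 : ∀ n a : ℕ, 2 ≤ n → 1 ≤ a → ∃ V : Finset ℕ, IsSpeeds n V ∧
        κ V = 1 / 2 ∧ κ (translate a V) = 1 / ((n : ℝ) + 1) ∧ κ (translate a V) < κ V := by
    intro n a hn ha
    refine ⟨oddSet n a, oddSet_speeds n a ha, κ_oddSet n a (by omega) ha,
      κ_translate n a (by omega) ha, ?_⟩
    rw [κ_oddSet n a (by omega) ha, κ_translate n a (by omega) ha]
    have : (2 : ℝ) ≤ n := by exact_mod_cast hn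
    exact one_div_lt_one_div_of_lt (by norm_num) (by linarith)
  refine ⟨fun h => ?_, h2⟩
  obtain ⟨V, hV, -, -, hlt⟩ := h2 2 1 le_rfl le_rfl
  exact absurd (h 2 (by omega) V hV 1 le_rfl) (not_le.2 hlt)

end Pool.Agent.Results.MP_64d5df_nt.TranslationDecreasesGap
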